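import Pool.Agent.X194.UM.Chain

/-!
# Unique maximal subsystems below a one-dimensional shift of finite type

For `ℤ`-shifts over a finite alphabet there is no chain `X₀ ⊋ X₁ ⊋ X₂ ⊋ X₃` with `X₀` of finite
type in which each term is the unique maximal subsystem of the preceding one.
-/

namespace Pool.Agent.Results.MP_0cba1e_an.DimensionOne

open Pool.Agent.X194.UM

/-- A shift of finite type: a nonempty set of configurations which consists of all configurations
avoiding, at every place, each pattern of a finite list of finite patterns. A pattern is a pair of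
a finite set `D` of integers and a map `p` of which only the values on `D` matter. -/
def IsSFT {A : Type*} (X : Set (ℤ → A)) : Prop :=
  X.Nonempty ∧ ∃ F : List (Finset ℤ × (ℤ → A)),
    X = {x | ∀ f ∈ F, ∀ v : ℤ, ¬ ∀ u ∈ f.1, x (u + v) = f.2 u}

theorem IsSFT.win {A : Type*} [TopologicalSpace A] [DiscreteTopology A] {X : Set (ℤ → A)}
    (h : IsSFT X) : IsShift X ∧ ∃ M, Win X M := by
  obtain ⟨hne, F, hF⟩ := h
  have hinv : ∀ v : ℤ, ∀ x ∈ X, sh v x ∈ X := by
    intro v x hx
    rw [hF] at hx ⊢
    intro f hf w hw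
    refine hx f hf (w + v) fun u hu => ?_
    have := hw u hu
    simp only [sh] at this
    rw [← this]; congr 1; ring
  have hM : ∃ M : ℕ, ∀ f ∈ F, ∀ u ∈ f.1, |u| ≤ M := by
    clear hF
    induction F with
    | nil => exact ⟨0, by simp⟩
    | cons f F ih =>
      obtain ⟨M, hM⟩ := ih
      refine ⟨M + ∑ u ∈ f.1, u.natAbs, ?_⟩
      intro g hg u hu
      rcases List.mem_cons.1 hg with h1 | h1
      · subst h1
        have h2 : u.natAbs ≤ ∑ u ∈ g.1, u.natAbs :=
          Finset.single_le_sum (f := fun u : ℤ => u.natAbs) (fun _ _ => Nat.zero_le _) hu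
        rw [abs_le]; omega
      · have h2 := hM g h1 u hu
        rw [abs_le] at h2 ⊢; omega
  obtain ⟨M, hM⟩ := hM
  have hwin : Win X M := by
    intro z hz
    rw [hF]
    intro f hf v hv
    obtain ⟨x, hx, hxa⟩ := hz v
    rw [hF] at hx
    refine hx f hf 0 fun u hu => ?_
    rw [add_zero, ← hxa u (hM f hf u hu)]
    exact hv u hu
  refine ⟨⟨hne, ?_, hinv⟩, M, hwin⟩
  rw [← isOpen_compl_iff]
  by_contra hcl
  have h1 : closure X ⊆ X := by
    intro z hz
    refine hwin z fun v => ?_
    obtain ⟨s, hs, hsa⟩ := exists_of_closure hz (v.natAbs + M)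
    refine ⟨sh v s, hinv v s hs, fun u hu => ?_⟩
    exact (hsa (u + v) (by rw [abs_le] at hu ⊢; omega)).symm
  exact hcl (isOpen_compl_iff.2 (closure_subset_iff_isClosed.1 h1))

/-- In dimension one there is no infinite chain of unique maximal subsystems starting with a shift
of finite type; there is not even such a chain with four terms. -/
theorem result (A : Type*) [Finite A] [TopologicalSpace A] [DiscreteTopology A] :
    ¬ ∃ X₀ X₁ X₂ X₃ : Set (ℤ → A), IsSFT X₀ ∧ UniqueMax X₁ X₀ ∧ UniqueMax X₂ X₁ ∧
      UniqueMax X₃ X₂ := by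
  rintro ⟨X₀, X₁, X₂, X₃, h, h0, h1, h2⟩
  obtain ⟨hX, M, hW⟩ := h.win
  exact no_chain hX hW h0 h1 h2.1

end Pool.Agent.Results.MP_0cba1e_an.DimensionOne
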